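import Pool.Agent.VisGraph.Lower
import Pool.Agent.VisGraph.Upper

/-!
# Optimal clique/biclique covering sets of visibility graphs: `f(n) = Θ(n log³ n)`
-/

namespace Pool.Agent.Results.MP_bbf28f_lc.ThetaLogCubed

open Pool.Agent.VisGraph Filter Asymptotics

/-- `f(n) = Θ(n log³ n)`, where `f(n)` is the maximum, over the visibility graphs of simple
polygons with `n` vertices, of the least bit count of a clique/biclique covering set. -/
theorem result :
    (∀ᶠ n : ℕ in atTop, IsGreatest
      {b | ∃ P : ZMod n → ℂ, IsSimplePolygon P ∧ beta (visGraph P) = b} (f n)) ∧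
    (fun n : ℕ => (f n : ℝ)) =Θ[atTop] fun n : ℕ => (n : ℝ) * Real.log n ^ 3 := by
  constructor
  · filter_upwards [eventually_ge_atTop 20736] with n hn
    obtain ⟨P, hP, -⟩ := exists_hard_polygon hn
    exact f_isGreatest ⟨P, hP⟩
  · have hpos : ∀ n : ℕ, 1 ≤ n → 0 ≤ (n : ℝ) * Real.log n ^ 3 := by
      intro n hn
      have h1 : (1 : ℝ) ≤ n := by exact_mod_cast hn
      have := Real.log_nonneg h1
      positivity
    constructor
    · refine IsBigO.of_bound 2592 ?_
      filter_upwards [eventually_ge_atTop 2] with n hn
      rw [Real.norm_of_nonneg (Nat.cast_nonneg _), Real.norm_of_nonneg (hpos n (by omega))]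
      exact f_upper hn
    · refine IsBigO.of_bound 18432 ?_
      filter_upwards [eventually_ge_atTop 20736] with n hn
      rw [Real.norm_of_nonneg (Nat.cast_nonneg _), Real.norm_of_nonneg (hpos n (by omega))]
      have := f_lower hn
      linarith

end Pool.Agent.Results.MP_bbf28f_lc.ThetaLogCubed
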